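import Pool.Agent.TH206.Fro.Defs

set_option autoImplicit false

namespace Pool.Agent.TH319.NM

open Finset Pool.Agent.TH206.Fro
open scoped Pointwise

/-- The monomials of degree `e` in the variables after those of `a`. -/
noncomputable def HS (n e : ℕ) (a : Fin n →₀ ℕ) : Finset (Fin n →₀ ℕ) :=
  (Mon n e).filter (fun w => ∀ i j, a i ≠ 0 → w j ≠ 0 → i ≤ j)

/-- every monomial of degree k+e is a product of its k first letters and its e last ones -/
lemma exists_split (n k e : ℕ) (y : Fin n →₀ ℕ) (hy : y ∈ Mon n (k + e)) :
    ∃ a ∈ Mon n k, ∃ w ∈ HS n e a, a + w = y := by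
  induction e generalizing y with
  | zero =>
    refine ⟨y, hy, 0, ?_, by simp⟩
    rw [HS, mem_filter, mem_Mon]
    simp
  | succ e ih =>
    rw [mem_Mon] at hy
    have hne : y.support.Nonempty := by
      rw [Finsupp.support_nonempty_iff]
      rintro rfl
      simp at hy
    obtain ⟨m, hm1, hm2⟩ : ∃ m ∈ y.support, ∀ j ∈ y.support, j ≤ m :=
      ⟨y.support.max' hne, Finset.max'_mem _ _, fun j hj => Finset.le_max' _ _ hj⟩
    have hm : y m ≠ 0 := Finsupp.mem_support_iff.1 hm1
    have hmax : ∀ j, y j ≠ 0 → j ≤ m := fun j hj => hm2 j (Finsupp.mem_support_iff.2 hj)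
    have hy' : (y - Finsupp.single m 1) + Finsupp.single m 1 = y := by
      ext i
      simp only [Finsupp.add_apply, Finsupp.tsub_apply, Finsupp.single_apply]
      by_cases h : m = i
      · subst h
        simp only [if_true]
        omega
      · simp [h]
    have hyM : (y - Finsupp.single m 1) ∈ Mon n (k + e) := by
      rw [mem_Mon]
      have h1 : ∑ i, (y - Finsupp.single m 1 : Fin n →₀ ℕ) i + ∑ i, (Finsupp.single m 1 : Fin n →₀ ℕ) i =
          ∑ i, y i := by
        rw [← Finset.sum_add_distrib]
        apply Finset.sum_congr rfl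
        intro i _
        exact DFunLike.congr_fun hy' i
      have h2 : ∑ i, (Finsupp.single m 1 : Fin n →₀ ℕ) i = 1 := by
        simp [Finsupp.single_apply]
      omega
    obtain ⟨a, ha, w, hw, haw⟩ := ih _ hyM
    refine ⟨a, ha, w + Finsupp.single m 1, ?_, by rw [← add_assoc, haw, hy']⟩
    rw [HS, mem_filter, mem_Mon] at hw ⊢
    refine ⟨?_, ?_⟩
    · have h2 : ∑ i, (Finsupp.single m 1 : Fin n →₀ ℕ) i = 1 := by
        simp [Finsupp.single_apply]
      simp only [Finsupp.add_apply, Finset.sum_add_distrib]
      omega
    · intro i j hi hj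
      by_cases hj' : w j = 0
      · have hjm : m = j := by
          by_contra h
          apply hj
          simp [hj', Finsupp.single_apply, h]
        subst hjm
        apply hmax
        have h3 := DFunLike.congr_fun hy' i
        have h4 := DFunLike.congr_fun haw i
        simp only [Finsupp.add_apply] at h3 h4
        omega
      · exact hw.2 i j hi hj'

end Pool.Agent.TH319.NM
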