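import Pool.Agent.TH206.Fro.Defs

set_option autoImplicit false

namespace Pool.Agent.TH319.NM.B

open Finset Pool.Agent.TH206.Fro
open scoped Pointwise

/-- The monomials of degree `e` in the variables after those of `a`. -/
noncomputable def HS (n e : ℕ) (a : Fin n →₀ ℕ) : Finset (Fin n →₀ ℕ) :=
  (Mon n e).filter (fun w => ∀ i j, a i ≠ 0 → w j ≠ 0 → i ≤ j)

lemma exists_lt' {n k : ℕ} {a b : Fin n →₀ ℕ} (ha : a ∈ Mon n k) (hb : b ∈ Mon n k)
    (h : a ≠ b) : ∃ i, a i < b i := by
  rw [mem_Mon] at ha hb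
  by_contra hc
  push Not at hc
  apply h
  have h1 : ∀ i ∈ (Finset.univ : Finset (Fin n)), b i = a i := by
    rw [← Finset.sum_eq_sum_iff_of_le (fun i _ => hc i)]
    omega
  ext i
  exact (h1 i (Finset.mem_univ i)).symm

lemma sum_HS_le (n k e : ℕ) : ∑ a ∈ Mon n k, (HS n e a).card ≤ (Mon n (k + e)).card := by
  classical
  rw [← Finset.card_sigma]
  apply Finset.card_le_card_of_injOn (fun p => p.1 + p.2)
  · intro p hp
    have hp' := Finset.mem_sigma.1 hp
    obtain ⟨h1, h2⟩ := hp'
    rw [HS, mem_filter] at h2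
    rw [Finset.mem_coe]
    rw [mem_Mon] at h1 ⊢
    have h3 := mem_Mon.1 h2.1
    simp only [Finsupp.add_apply, Finset.sum_add_distrib]
    omega
  · rintro ⟨a, w⟩ hp ⟨a', w'⟩ hp' heq
    obtain ⟨h1, h2⟩ := Finset.mem_sigma.1 hp
    obtain ⟨h1', h2'⟩ := Finset.mem_sigma.1 hp'
    rw [HS, mem_filter] at h2 h2'
    simp only at heq h1 h2 h1' h2'
    have heq' : ∀ i, a i + w i = a' i + w' i := fun i => DFunLike.congr_fun heq i
    have haa : a = a' := by
      by_contra hne
      obtain ⟨i, hi⟩ := exists_lt' h1 h1' hne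
      obtain ⟨j, hj⟩ := exists_lt' h1' h1 (Ne.symm hne)
      have e1 := heq' i
      have e2 := heq' j
      have l1 : j ≤ i := h2.2 j i (by omega) (by omega)
      have l2 : i ≤ j := h2'.2 i j (by omega) (by omega)
      have : i = j := le_antisymm l2 l1
      subst this
      omega
    subst haa
    have hww : w = w' := by
      ext i
      have := heq' i
      omega
    subst hww
    rfl

end Pool.Agent.TH319.NM.B
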