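import Pool.Agent.TH206.Fro.Defs

set_option autoImplicit false

namespace Pool.Agent.TH319.NM.C

open Finset Pool.Agent.TH206.Fro
open scoped Pointwise

/-- The monomials of degree `e` in the variables after those of `a`. -/
noncomputable def HS (n e : ℕ) (a : Fin n →₀ ℕ) : Finset (Fin n →₀ ℕ) :=
  (Mon n e).filter (fun w => ∀ i j, a i ≠ 0 → w j ≠ 0 → i ≤ j)

lemma HS_anti (n k e : ℕ) (c : Fin n →₀ ℕ) (i j : Fin n) (hij : i < j) (hi : 0 < c i) :
    (HS n e (mv j i c)).card ≤ (HS n e c).card := by
  apply Finset.card_le_card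
  intro w hw
  rw [HS, mem_filter] at hw ⊢
  refine ⟨hw.1, ?_⟩
  intro l t hl ht
  by_cases h : l = i
  · subst h
    have h1 : mv j l c j ≠ 0 := by
      simp [mv]
    exact hij.le.trans (hw.2 j t h1 ht)
  · apply hw.2 l t _ ht
    simp only [mv, Finsupp.add_apply, Finsupp.tsub_apply]
    rw [Finsupp.single_eq_of_ne h]
    omega

/-- for `0` the first index -/
lemma HS_pow_card (n k e : ℕ) (z : Fin n) (hz : ∀ i, z ≤ i) :
    (HS n e (Finsupp.single z k)).card = (Mon n e).card := by
  congr 1
  rw [HS]
  apply Finset.filter_true_of_mem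
  intro w _ i j hi _
  have h1 : z = i := by
    by_contra h
    apply hi
    simp [Finsupp.single_apply, h]
  rw [← h1]
  exact hz j

lemma HS_pow_mv (n k e : ℕ) (he : 1 ≤ e) (z : Fin n) (hz : ∀ i, z ≤ i) (j : Fin n) (hj : z < j) :
    (HS n e (mv j z (Finsupp.single z k))).card + (Mon n (e - 1)).card ≤ (Mon n e).card := by
  classical
  have hinj : Function.Injective (fun w : Fin n →₀ ℕ => w + Finsupp.single z 1) :=
    add_left_injective _
  rw [← Finset.card_image_of_injective (Mon n (e - 1)) hinj]
  rw [← Finset.card_union_of_disjoint]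
  · apply Finset.card_le_card
    intro w hw
    rw [mem_union] at hw
    rcases hw with hw | hw
    · rw [HS, mem_filter] at hw
      exact hw.1
    · rw [mem_image] at hw
      obtain ⟨w', hw', rfl⟩ := hw
      rw [mem_Mon] at hw' ⊢
      have h2 : ∑ i, (Finsupp.single z 1 : Fin n →₀ ℕ) i = 1 := by
        simp [Finsupp.single_apply]
      simp only [Finsupp.add_apply, Finset.sum_add_distrib]
      omega
  · rw [Finset.disjoint_left]
    intro w hw hw'
    rw [mem_image] at hw'
    obtain ⟨w', _, rfl⟩ := hw'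
    rw [HS, mem_filter] at hw
    have h1 : mv j z (Finsupp.single z k) j ≠ 0 := by
      simp [mv]
    have h2 := hw.2 j z h1 (by simp)
    exact absurd h2 (not_le.2 hj)

end Pool.Agent.TH319.NM.C
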